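import Mathlib

/-!
# MP_5e9fbd_co: the bound `(n+1)/2^n * 2^(n choose 2)` is false for `n = 4` and for `n = 5`

A family of graphs on `Fin n` is given by a list of minimal edge sets (bit masks); all supersets of
a minimal edge set are taken. For `n = 4` the family consists of the 22 graphs with at least four
edges (the bound is 20), for `n = 5` it has 196 members (the bound is 192).
-/

namespace Pool.Agent.Results.MP_5e9fbd_co.SmallOrders

open SimpleGraph

/-- Position of the pair `{i, j}`, `i < j`, in the mask: `j (j - 1) / 2 + i`. -/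
def code (i j : ℕ) : ℕ := if i < j then j * (j - 1) / 2 + i else i * (i - 1) / 2 + j

theorem code_comm (i j : ℕ) (h : i ≠ j) : code i j = code j i := by
  unfold code
  rcases lt_or_gt_of_ne h with h | h
  · rw [if_pos h, if_neg (by omega)]
  · rw [if_neg (by omega), if_pos h]

/-- The graph on `Fin n` whose edges are the bits of `M`. -/
def gr (n M : ℕ) : SimpleGraph (Fin n) where
  Adj i j := i ≠ j ∧ M.testBit (code i j) = true
  symm := ⟨fun i j h => ⟨h.1.symm, by
    rw [code_comm _ _ (fun e => h.1 (Fin.ext e).symm)]; exact h.2⟩⟩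
  loopless := ⟨fun _ h => h.1 rfl⟩

/-- Boolean reachability in `k` steps. -/
def reach (n M : ℕ) : ℕ → ℕ → ℕ → Bool
  | 0, a, v => a == v
  | k + 1, a, v =>
    (List.range n).any fun u => reach n M k a u && (u == v || M.testBit (code u v))

/-- Two vertices from which everything is reached in at most two steps. -/
def ok (n M : ℕ) : Bool :=
  (List.range n).any fun a => (List.range n).any fun b =>
    (List.range n).all fun v => reach n M 2 a v || reach n M 2 b v

theorem reach_sound (n M : ℕ) (G : SimpleGraph (Fin n)) (hG : gr n M ≤ G) (k : ℕ)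
    (a v : Fin n) (h : reach n M k a v = true) : G.Reachable a v := by
  induction k generalizing v with
  | zero =>
    simp only [reach, beq_iff_eq] at h
    rw [Fin.ext h]
  | succ k ih =>
    simp only [reach, List.any_eq_true, List.mem_range, Bool.and_eq_true, Bool.or_eq_true,
      beq_iff_eq] at h
    obtain ⟨u, hu, h1, h2⟩ := h
    have h3 : G.Reachable a ⟨u, hu⟩ := ih ⟨u, hu⟩ h1
    rcases h2 with h2 | h2
    · have : (⟨u, hu⟩ : Fin n) = v := Fin.ext h2
      rw [← this]; exact h3
    · by_cases huv : (⟨u, hu⟩ : Fin n) = v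
      · rw [← huv]; exact h3
      · exact h3.trans (hG (show (gr n M).Adj ⟨u, hu⟩ v from ⟨huv, h2⟩)).reachable

theorem card_le (n M : ℕ) (G : SimpleGraph (Fin n)) (hG : gr n M ≤ G) (h : ok n M = true) :
    Nat.card G.ConnectedComponent ≤ 2 := by
  classical
  simp only [ok, List.any_eq_true, List.mem_range, List.all_eq_true, Bool.or_eq_true] at h
  obtain ⟨a, ha, b, hb, h⟩ := h
  have hs : (Set.univ : Set G.ConnectedComponent) ⊆
      {G.connectedComponentMk ⟨a, ha⟩, G.connectedComponentMk ⟨b, hb⟩} := by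
    intro c _
    induction c using ConnectedComponent.ind with
    | h v =>
      rcases h v v.2 with h' | h'
      · left
        exact (ConnectedComponent.sound (reach_sound n M G hG 2 ⟨a, ha⟩ v h')).symm
      · right
        exact (ConnectedComponent.sound (reach_sound n M G hG 2 ⟨b, hb⟩ v h')).symm
  calc Nat.card G.ConnectedComponent = (Set.univ : Set G.ConnectedComponent).ncard := by
        rw [Set.ncard_univ]
    _ ≤ ({G.connectedComponentMk ⟨a, ha⟩, G.connectedComponentMk ⟨b, hb⟩} :
          Set G.ConnectedComponent).ncard := Set.ncard_le_ncard hs (by simp)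
    _ ≤ 2 := by
        refine (Set.ncard_insert_le _ _).trans ?_
        rw [Set.ncard_singleton]

/-- Minimal masks for `n = 4`. -/
def L4 : List ℕ := [15, 23, 27, 29, 30, 39, 43, 45, 46, 51, 53, 54, 57, 58, 60]

/-- Minimal masks for `n = 5`. -/
def L5 : List ℕ := [127, 191, 219, 221, 222, 235, 237, 238, 243, 245, 246, 248, 319, 347, 349,
  350, 363, 365, 366, 371, 373, 374, 376, 411, 413, 414, 427, 429, 430, 435, 437, 438, 440, 463,
  471, 472, 487, 488, 496]

/-- The masks below `2^e` containing a mask of `L`. -/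
def fam (L : List ℕ) (e : ℕ) : Finset ℕ :=
  (Finset.range (2 ^ e)).filter fun M => L.any fun m => m &&& M == m

theorem gr_mono (n m M : ℕ) (h : m &&& M = m) : gr n m ≤ gr n M := by
  intro i j hij
  refine ⟨hij.1, ?_⟩
  have h1 := hij.2
  rw [← h, Nat.testBit_and, Bool.and_eq_true] at h1
  exact h1.2

theorem gr_and (n m m' : ℕ) : gr n (m &&& m') = gr n m ⊓ gr n m' := by
  ext i j
  simp only [gr, inf_adj, Nat.testBit_and, Bool.and_eq_true]
  tauto

theorem cond (n e : ℕ) (L : List ℕ)
    (h : (L.all fun a => L.all fun b => ok n (a &&& b)) = true) (M M' : ℕ)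
    (hM : M ∈ fam L e) (hM' : M' ∈ fam L e) :
    Nat.card (gr n M ⊓ gr n M').ConnectedComponent ≤ 2 := by
  simp only [fam, Finset.mem_filter, List.any_eq_true, beq_iff_eq] at hM hM'
  obtain ⟨-, m, hm, h1⟩ := hM
  obtain ⟨-, m', hm', h2⟩ := hM'
  simp only [List.all_eq_true] at h
  refine card_le n (m &&& m') _ ?_ (h m hm m' hm')
  rw [gr_and]
  exact inf_le_inf (gr_mono n m M h1) (gr_mono n m' M' h2)

theorem gr_inj (n e : ℕ) (he : ∀ k < e, ∃ i j : Fin n, i ≠ j ∧ code i j = k) (M M' : ℕ)
    (hM : M < 2 ^ e) (hM' : M' < 2 ^ e) (h : gr n M = gr n M') : M = M' := by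
  apply Nat.eq_of_testBit_eq
  intro k
  by_cases hk : k < e
  · obtain ⟨i, j, hij, hc⟩ := he k hk
    have h1 : (gr n M).Adj i j ↔ (gr n M').Adj i j := by rw [h]
    simp only [gr, hij, ne_eq, not_false_eq_true, true_and, hc] at h1
    cases h3 : M.testBit k <;> cases h4 : M'.testBit k <;> simp_all
  · have hk' : e ≤ k := not_lt.1 hk
    rw [Nat.testBit_lt_two_pow (lt_of_lt_of_le hM (Nat.pow_le_pow_right (by norm_num) hk')),
      Nat.testBit_lt_two_pow (lt_of_lt_of_le hM' (Nat.pow_le_pow_right (by norm_num) hk'))]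

theorem family (n e c : ℕ) (L : List ℕ)
    (h : (L.all fun a => L.all fun b => ok n (a &&& b)) = true)
    (he : ∀ k < e, ∃ i j : Fin n, i ≠ j ∧ code i j = k) (hc : (fam L e).card = c) :
    ∃ F : Finset (SimpleGraph (Fin n)),
      (∀ G ∈ F, ∀ G' ∈ F, G ≠ G' → Nat.card (G ⊓ G').ConnectedComponent ≤ 2) ∧ F.card = c := by
  classical
  refine ⟨(fam L e).image (gr n), ?_, ?_⟩
  · intro G hG G' hG' _
    obtain ⟨M, hM, rfl⟩ := Finset.mem_image.1 hG
    obtain ⟨M', hM', rfl⟩ := Finset.mem_image.1 hG'
    exact cond n e L h M M' hM hM'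
  · rw [Finset.card_image_of_injOn, hc]
    intro M hM M' hM' hMM
    simp only [fam, Finset.coe_filter, Finset.mem_range, Set.mem_ofPred_eq] at hM hM'
    exact gr_inj n e he M M' hM.1 hM'.1 hMM

theorem check4 : (L4.all fun a => L4.all fun b => ok 4 (a &&& b)) = true := by decide +kernel

theorem check5 : (L5.all fun a => L5.all fun b => ok 5 (a &&& b)) = true := by decide +kernel

theorem card4 : (fam L4 6).card = 22 := by decide +kernel

theorem card5 : (fam L5 10).card = 196 := by decide +kernel

theorem codes4 : ∀ k < 6, ∃ i j : Fin 4, i ≠ j ∧ code i j = k := by decide +kernel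

theorem codes5 : ∀ k < 10, ∃ i j : Fin 5, i ≠ j ∧ code i j = k := by decide +kernel

/-- For `n = 4` and for `n = 5` there is a family of graphs on `n` labelled vertices such that any
two distinct members have an intersection with at most two connected components, and which has more
than `(n+1)/2^n * 2^(n choose 2)` members. -/
theorem result : ∀ n : ℕ, n = 4 ∨ n = 5 →
    ∃ F : Finset (SimpleGraph (Fin n)),
      (∀ G ∈ F, ∀ G' ∈ F, G ≠ G' → Nat.card (G ⊓ G').ConnectedComponent ≤ 2) ∧
      ((n : ℝ) + 1) / 2 ^ n * 2 ^ (n.choose 2) < (F.card : ℝ) := by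
  rintro n (rfl | rfl)
  · obtain ⟨F, h1, h2⟩ := family 4 6 22 L4 check4 codes4 card4
    refine ⟨F, h1, ?_⟩
    rw [h2]
    have : Nat.choose 4 2 = 6 := by decide
    rw [this]
    norm_num
  · obtain ⟨F, h1, h2⟩ := family 5 10 196 L5 check5 codes5 card5
    refine ⟨F, h1, ?_⟩
    rw [h2]
    have : Nat.choose 5 2 = 10 := by decide
    rw [this]
    norm_num

end Pool.Agent.Results.MP_5e9fbd_co.SmallOrders
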